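import Pool.Agent.Lib.MP_c5b21d_co.Plane

namespace Pool.Agent.Results.MP_c5b21d_co.SqrtDegree

theorem result (p : ℕ) [Fact p.Prime] (h3 : p % 3 = 2) (h5 : 5 < p) :
    ∃ S : Finset (Matrix.SpecialLinearGroup (Fin 3) (ZMod p)),
      (∀ s ∈ S, s⁻¹ ∈ S) ∧ 1 ∉ S ∧
      Subgroup.closure (S : Set (Matrix.SpecialLinearGroup (Fin 3) (ZMod p))) = ⊤ ∧
      S.card ≤ 2 * p ^ 4 ∧
      ∀ (μ : ℝ) (f : Matrix.SpecialLinearGroup (Fin 3) (ZMod p) → ℝ), f ≠ 0 →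
        (∀ g, ∑ s ∈ S, f (g * s) = μ * f g) → μ ≠ (S.card : ℝ) →
        |μ| ≤ 2 * √((S.card : ℝ) - 1) :=
  Pool.Agent.Lib.MP_c5b21d_co.main_p p h3 h5

end Pool.Agent.Results.MP_c5b21d_co.SqrtDegree
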